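import Pool.Agent.helper14.AU.Spec

/-!
Project au (MP_d58e27_lc), statement PI: the components of the items are polynomial-time computable.
-/

set_option autoImplicit false

namespace Pool.Agent.helper14.AU

open N68a2faeb N793a5b8e Pool.Agent.helper56.SGE Pool.Agent.helper56.SGE.QSys
  Pool.Agent.helper98.Tsei Pool.Agent.H54.PT

/-- all four components are computable -/
def PI_C (T : List Bool → (ℕ → ℕ) → Item) : Prop :=
  Cp (fun x v => (T x v).1) ∧ Cp (fun x v => (T x v).2.1) ∧ Cp (fun x v => (T x v).2.2.1) ∧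
    Cp (fun x v => (T x v).2.2.2)

theorem PI_mk {a b c d : List Bool → (ℕ → ℕ) → ℕ} (ha : Cp a) (hb : Cp b) (hc : Cp c) (hd : Cp d) :
    PI_C (fun x v => (a x v, b x v, c x v, d x v)) := ⟨ha, hb, hc, hd⟩

theorem PI_ite {P : List Bool → (ℕ → ℕ) → Prop} {T T' : List Bool → (ℕ → ℕ) → Item}
    [∀ x v, Decidable (P x v)] (hP : Cq P) (h : PI_C T) (h' : PI_C T') :
    PI_C (fun x v => if P x v then T x v else T' x v) := by
  refine ⟨(Cp.ite hP h.1 h'.1).congr fun x v => ?_, (Cp.ite hP h.2.1 h'.2.1).congr fun x v => ?_,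
    (Cp.ite hP h.2.2.1 h'.2.2.1).congr fun x v => ?_,
    (Cp.ite hP h.2.2.2 h'.2.2.2).congr fun x v => ?_⟩ <;>
  · by_cases hp : P x v
    · simp only [if_pos hp]
    · simp only [if_neg hp]

theorem PI_base {g : List Bool → (ℕ → ℕ) → ℕ} (hg : Cp g) : PI_C (fun x v => baseIt (g x v)) := by
  unfold baseIt
  have h : ∀ n : ℕ, Cq (fun x v => g x v = n) := fun n => Cq.eq hg (Cp.const n)
  have hc : ∀ a b c d : ℕ, PI_C (fun _ _ => (a, b, c, d)) := fun a b c d =>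
    PI_mk (Cp.const a) (Cp.const b) (Cp.const c) (Cp.const d)
  exact PI_ite (h 0) (hc _ _ _ _) <| PI_ite (h 1) (hc _ _ _ _) <| PI_ite (h 2) (hc _ _ _ _) <|
    PI_ite (h 3) (hc _ _ _ _) <| PI_ite (h 4) (hc _ _ _ _) <| PI_ite (h 5) (hc _ _ _ _) <|
    PI_ite (h 6) (hc _ _ _ _) <| PI_ite (h 7) (hc _ _ _ _) <| PI_ite (h 8) (hc _ _ _ _) <|
    PI_ite (h 9) (hc _ _ _ _) (hc _ _ _ _)

theorem PI_lin {e : List Bool → (ℕ → ℕ) → ℕ} (n : ℕ) (he : Cp e) : Cp (fun x v => n + 5 * e x v) :=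
  (Cp.const n).add ((Cp.const 5).mul he)

theorem PI_blk {P : List Bool → (ℕ → ℕ) → Prop} [∀ x v, Decidable (P x v)] (hP : Cq P)
    {r c : List Bool → (ℕ → ℕ) → ℕ} (hr : Cp r) (hc : Cp c) :
    PI_C (fun x v => blkIt (decide (P x v)) (r x v) (c x v)) := by
  unfold blkIt
  simp only [decide_eq_true_eq]
  have h : ∀ n : ℕ, Cq (fun x v => c x v = n) := fun n => Cq.eq hc (Cp.const n)
  have k : ∀ n : ℕ, Cp (fun _ _ => n) := Cp.const
  have hN : Cp (fun x v => nN (r x v)) := PI_lin 4 hr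
  have hX : Cp (fun x v => nX (r x v)) := PI_lin 5 hr
  have hS : Cp (fun x v => nS (r x v)) := PI_lin 6 hr
  have hM : Cp (fun x v => nM (r x v)) := PI_lin 7 hr
  have hD : Cp (fun x v => nD (r x v)) := PI_lin 8 hr
  exact PI_ite (h 0) (PI_mk (k _) (k _) (k _) hN) <| PI_ite (h 1) (PI_mk (k _) (k _) hN (k _)) <|
    PI_ite (h 2) (PI_mk (k _) (k _) (k _) hX) <| PI_ite (h 3) (PI_mk (k _) (k _) hX (k _)) <|
    PI_ite (h 4) (PI_mk (k _) (k _) (k _) hS) <| PI_ite (h 5) (PI_mk (k _) (k _) hS (k _)) <|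
    PI_ite (h 6) (PI_mk (k _) (k _) (k _) hM) <| PI_ite (h 7) (PI_mk (k _) (k _) hN hM) <|
    PI_ite (h 8) (PI_mk (k _) (k _) hS hM) <| PI_ite (h 9) (PI_mk (k _) (k _) hX hD) <|
    PI_ite (h 10) (PI_mk (k _) (k _) hN hD) <| PI_ite (h 11) (PI_mk (k _) (k _) (k _) hD) <|
    PI_ite hP (PI_mk (k _) (k _) hX (k _)) (PI_mk (k _) (k _) (k _) (k _))

theorem PI_eq (hR : Cp (fun x v => (sysU x).ref (v 0) (v 1))) {K k c : List Bool → (ℕ → ℕ) → ℕ}
    (hK : Cp K) (hk : Cp k) (hc : Cp c) :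
    PI_C (fun x v => eqIt (sysU x) (K x v) (k x v) (c x v)) := by
  unfold eqIt
  have h : ∀ n : ℕ, Cq (fun x v => c x v = n) := fun n => Cq.eq hc (Cp.const n)
  have hr : ∀ n : ℕ, Cp (fun x v => (sysU x).ref (k x v) n) := fun n =>
    Cp.comp2 (g := fun x a b => (sysU x).ref a b) hR hk (Cp.const n)
  have q : ∀ n : ℕ, Cp (fun _ _ => n) := Cp.const
  exact PI_ite (h 0) (PI_mk (q _) (q _) (PI_lin 5 (hr 1)) hK) <|
    PI_ite (h 1) (PI_mk (q _) (q _) (PI_lin 4 (hr 3)) hK)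
      (PI_mk (q _) (PI_lin 6 (hr 0)) (PI_lin 4 (hr 2)) hK)

theorem PI (hPU : PU_stmt) : PI_stmt := by
  obtain ⟨h1, h2, h3, h4⟩ := hPU
  have hg : Cp (fun _ v => v 0) := Cp.var 0
  have hnR : Cp (fun x _ => nR (sysU x)) := h1.add (Cp.const 2)
  have h13 : Cp (fun x _ => 13 * nR (sysU x)) := (Cp.const 13).mul hnR
  have hg11 : Cp (fun _ v => v 0 - 11) := hg.sub (Cp.const 11)
  have he : Cp (fun x v => v 0 - 11 - 13 * nR (sysU x)) := hg11.sub h13
  have hM : Cq (fun x v => MU x ((v 0 - 11) / 13)) :=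
    Cq.comp1 (g := fun x a => MU x a) h4 (hg11.div (Cp.const 13))
  have h : PI_C (fun x v => itemOf (sysU x) (MU x) (v 0)) := by
    classical
    unfold itemOf
    exact PI_ite (Cq.lt hg (Cp.const 11)) (PI_base hg) <|
      PI_ite (Cq.lt hg ((Cp.const 11).add h13))
        (PI_blk (P := fun x v => MU x ((v 0 - 11) / 13)) hM (hg11.div (Cp.const 13))
          (hg11.mod (Cp.const 13)))
        (PI_eq h3 (((Cp.const 4).add ((Cp.const 5).mul hnR)).add (he.div (Cp.const 3)))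
          (he.div (Cp.const 3)) (he.mod (Cp.const 3)))
  exact h

end Pool.Agent.helper14.AU
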